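import Mathlib

set_option autoImplicit false

open Set Filter Topology
open scoped RealInnerProductSpace

namespace Pool.Agent.X297.MR

/-- There are arbitrarily large finite sets of positive integers in which every difference
`y - x > 0` divides `x`. -/
theorem divset (r : ℕ) : ∃ S : Finset ℕ, S.card = r ∧ (∀ x ∈ S, 0 < x) ∧
    ∀ x ∈ S, ∀ y ∈ S, x < y → (y - x) ∣ x := by
  induction r with
  | zero => exact ⟨∅, by simp, by simp, by simp⟩
  | succ r ih =>
    obtain ⟨S, hc, h0, hd⟩ := ih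
    obtain ⟨M, hM⟩ : ∃ M, ∀ x ∈ S, x ≤ M := ⟨S.sup id, fun x hx => Finset.le_sup (f := id) hx⟩
    set P := M.factorial with hP
    have hP0 : 0 < P := Nat.factorial_pos M
    have hnot : P ∉ S.image (· + P) := by
      intro h
      obtain ⟨x, hx, hxe⟩ := Finset.mem_image.mp h
      have := h0 x hx
      omega
    refine ⟨insert P (S.image (· + P)), ?_, ?_, ?_⟩
    · rw [Finset.card_insert_of_notMem hnot, Finset.card_image_of_injective _
        (add_left_injective P), hc]
    · intro x hx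
      rcases Finset.mem_insert.mp hx with h | h
      · omega
      · obtain ⟨y, _, hy⟩ := Finset.mem_image.mp h
        omega
    · intro x hx y hy hxy
      rcases Finset.mem_insert.mp hx with h | h
      · rcases Finset.mem_insert.mp hy with h' | h'
        · omega
        · obtain ⟨z, hz, hze⟩ := Finset.mem_image.mp h'
          have e1 : y - x = z := by omega
          rw [e1, h]
          exact Nat.dvd_factorial (h0 z hz) (hM z hz)
      · obtain ⟨w, hw, hwe⟩ := Finset.mem_image.mp h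
        rcases Finset.mem_insert.mp hy with h' | h'
        · omega
        · obtain ⟨z, hz, hze⟩ := Finset.mem_image.mp h'
          have e1 : y - x = z - w := by omega
          rw [e1, ← hwe]
          have hwz : w < z := by omega
          apply dvd_add (hd w hw z hz hwz)
          exact Nat.dvd_factorial (by omega) (by have := hM z hz; omega)

variable {H : Type*} [NormedAddCommGroup H] [InnerProductSpace ℝ H]

/-- The Hilbert space data of a multiplicative measure preserving system and a set. -/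
structure Sys (U : ℕ → H →ₗᵢ[ℝ] H) (f e : H) : Prop where
  mul : ∀ n m, 1 ≤ n → 1 ≤ m → ∀ v, U (n * m) v = U n (U m v)
  one : ∀ v, U 1 v = v
  e1 : ‖e‖ = 1
  ue : ∀ n, 1 ≤ n → U n e = e
  f1 : ‖f‖ ≤ 1
  pos : ∀ n m, 1 ≤ n → 1 ≤ m → (0:ℝ) ≤ ⟪U n f, U m f⟫
  fe : (0:ℝ) < ⟪f, e⟫

variable {U : ℕ → H →ₗᵢ[ℝ] H} {f e : H}

theorem Sys.comm (h : Sys U f e) {n m : ℕ} (hn : 1 ≤ n) (hm : 1 ≤ m) (v : H) :
    U n (U m v) = U m (U n v) := by
  rw [← h.mul n m hn hm, ← h.mul m n hm hn, mul_comm]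

/-- The orbit of `f` under the squares. -/
def orb (U : ℕ → H →ₗᵢ[ℝ] H) (f : H) : Set H := {v | ∃ k : ℕ, 1 ≤ k ∧ v = U (k ^ 2) f}

/-- Its closed convex hull. -/
def hull (U : ℕ → H →ₗᵢ[ℝ] H) (f : H) : Set H := closure (convexHull ℝ (orb U f))

theorem hull_sub {K : Set H} (hK : Convex ℝ K) (hc : IsClosed K) (h : orb U f ⊆ K) :
    hull U f ⊆ K := closure_minimal (convexHull_min h hK) hc

theorem sq1 {k : ℕ} (hk : 1 ≤ k) : 1 ≤ k ^ 2 := Nat.one_le_pow _ _ hk

theorem hull_map (h : Sys U f e) {k : ℕ} (hk : 1 ≤ k) {v : H} (hv : v ∈ hull U f) :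
    U (k ^ 2) v ∈ hull U f := by
  have hsub : hull U f ⊆ (U (k ^ 2)) ⁻¹' (hull U f) := by
    apply hull_sub
    · exact (convex_convexHull ℝ (orb U f)).closure.linear_preimage (U (k ^ 2)).toLinearMap
    · exact isClosed_closure.preimage (U (k ^ 2)).continuous
    · rintro w ⟨j, hj, rfl⟩
      show U (k ^ 2) (U (j ^ 2) f) ∈ hull U f
      rw [← h.mul _ _ (sq1 hk) (sq1 hj), ← mul_pow]
      exact subset_closure (subset_convexHull ℝ _ ⟨k * j, Nat.mul_pos hk hj, rfl⟩)
  exact hsub hv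

theorem exists_inv [CompleteSpace H] (h : Sys U f e) :
    ∃ g ∈ hull U f, ∀ k, 1 ≤ k → U (k ^ 2) g = g := by
  have hne : (hull U f).Nonempty :=
    ⟨U (1 ^ 2) f, subset_closure (subset_convexHull ℝ _ ⟨1, le_rfl, rfl⟩)⟩
  have hconv : Convex ℝ (hull U f) := (convex_convexHull ℝ (orb U f)).closure
  obtain ⟨g, hg, hmin⟩ := exists_norm_eq_iInf_of_complete_convex hne
    (isClosed_closure.isComplete) hconv 0
  refine ⟨g, hg, fun k hk => ?_⟩
  have h1 := (norm_eq_iInf_iff_real_inner_le_zero hconv hg).mp hmin _ (hull_map h hk hg)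
  rw [zero_sub, inner_neg_left, inner_sub_right] at h1
  have h2 : ‖U (k ^ 2) g - g‖ ^ 2 = ‖U (k ^ 2) g‖ ^ 2 - 2 * ⟪U (k ^ 2) g, g⟫ + ‖g‖ ^ 2 :=
    norm_sub_sq_real _ _
  rw [(U (k ^ 2)).norm_map, real_inner_comm] at h2
  rw [real_inner_self_eq_norm_sq] at h1
  have h3 : ‖U (k ^ 2) g - g‖ ^ 2 ≤ 0 := by linarith
  have h4 : ‖U (k ^ 2) g - g‖ = 0 := by
    have := sq_nonneg ‖U (k ^ 2) g - g‖
    exact pow_eq_zero_iff (two_ne_zero) |>.mp (le_antisymm h3 this)
  exact sub_eq_zero.mp (norm_eq_zero.mp h4)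

/-- The invariant vector and its properties. -/
structure Inv (U : ℕ → H →ₗᵢ[ℝ] H) (f e g : H) : Prop where
  mem : g ∈ hull U f
  inv : ∀ k, 1 ≤ k → U (k ^ 2) g = g

theorem Inv.pos {g : H} (h : Sys U f e) (hg : Inv U f e g) {a b : ℕ} (ha : 1 ≤ a) (hb : 1 ≤ b) :
    (0:ℝ) ≤ ⟪U a f, U b g⟫ := by
  have hsub : hull U f ⊆ {v | (0:ℝ) ≤ ⟪U a f, U b v⟫} := by
    apply hull_sub
    · intro v hv w hw s t hs ht hst
      simp only [mem_ofPred_eq] at hv hw ⊢
      rw [map_add, map_smul, map_smul, inner_add_right, inner_smul_right, inner_smul_right]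
      positivity
    · exact isClosed_le continuous_const
        (continuous_const.inner ((U b).continuous))
    · rintro w ⟨j, hj, rfl⟩
      simp only [mem_ofPred_eq]
      rw [← h.mul _ _ hb (sq1 hj)]
      exact h.pos _ _ ha (Nat.mul_pos hb (sq1 hj))
  exact hsub hg.mem

theorem Inv.ge {g : H} (h : Sys U f e) (hg : Inv U f e g) : ⟪g, e⟫ = ⟪f, e⟫ := by
  have hsub : hull U f ⊆ {v | (⟪v, e⟫ : ℝ) = ⟪f, e⟫} := by
    apply hull_sub
    · intro v hv w hw s t hs ht hst
      simp only [mem_ofPred_eq] at hv hw ⊢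
      rw [inner_add_left, inner_smul_left, inner_smul_left, hv, hw]
      simp only [conj_trivial]
      rw [← add_mul, hst, one_mul]
    · exact isClosed_eq (continuous_id.inner continuous_const) continuous_const
    · rintro w ⟨j, hj, rfl⟩
      simp only [mem_ofPred_eq]
      conv_lhs => rw [← h.ue _ (sq1 hj)]
      exact (U (j ^ 2)).inner_map_map _ _
  exact hsub hg.mem

theorem Inv.norm_le {g : H} (h : Sys U f e) (hg : Inv U f e g) : ‖g‖ ≤ 1 := by
  have hsub : hull U f ⊆ Metric.closedBall 0 1 := by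
    apply hull_sub (convex_closedBall _ _) Metric.isClosed_closedBall
    rintro w ⟨j, hj, rfl⟩
    rw [mem_closedBall_zero_iff, (U (j ^ 2)).norm_map]
    exact h.f1
  simpa using hsub hg.mem

theorem Inv.proj {g : H} (h : Sys U f e) (hg : Inv U f e g) {a : ℕ} (ha : 1 ≤ a) :
    (⟪U a g, g⟫ : ℝ) = ⟪U a f, g⟫ := by
  have hsub : hull U f ⊆ {v | (⟪U a v, g⟫ : ℝ) = ⟪U a f, g⟫} := by
    apply hull_sub
    · intro v hv w hw s t hs ht hst
      simp only [mem_ofPred_eq] at hv hw ⊢
      rw [map_add, map_smul, map_smul, inner_add_left, inner_smul_left, inner_smul_left, hv, hw]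
      simp only [conj_trivial]
      rw [← add_mul, hst, one_mul]
    · exact isClosed_eq (((U a).continuous).inner continuous_const) continuous_const
    · rintro w ⟨j, hj, rfl⟩
      simp only [mem_ofPred_eq]
      rw [h.comm ha (sq1 hj)]
      conv_lhs => rw [← hg.inv j hj]
      exact (U (j ^ 2)).inner_map_map _ _
  exact hsub hg.mem

/-- The correlation of consecutive integers. -/
noncomputable def ph (U : ℕ → H →ₗᵢ[ℝ] H) (f g : H) (n : ℕ) : ℝ := ⟪U (n * (n + 1)) f, g⟫

theorem ph_nonneg {g : H} (h : Sys U f e) (hg : Inv U f e g) {n : ℕ} (hn : 1 ≤ n) :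
    0 ≤ ph U f g n := by
  have := hg.pos h (a := n * (n + 1)) (b := 1) (Nat.mul_pos hn (by omega)) le_rfl
  rwa [h.one] at this

theorem ph_eq {g : H} (h : Sys U f e) (hg : Inv U f e g) {n D : ℕ} (hn : 1 ≤ n) (hD : 1 ≤ D) :
    (⟪U (D * n) g, U (D * (n + 1)) g⟫ : ℝ) = ph U f g n := by
  unfold ph
  rw [← hg.proj h (Nat.mul_pos hn (by omega : 0 < n + 1)), h.mul D n hD hn,
    h.mul D (n + 1) hD (by omega), (U D).inner_map_map, h.mul n (n + 1) hn (by omega)]
  conv_rhs => rw [← hg.inv n hn, sq, h.mul n n hn hn, (h.mul n n hn hn g).symm]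
  rw [← (U n).inner_map_map (U n g), ← h.mul n n hn hn, ← sq, hg.inv n hn, real_inner_comm]

theorem lower {g : H} (h : Sys U f e) (hg : Inv U f e g) :
    ∃ c0 : ℝ, 0 < c0 ∧ ∃ N0 : ℕ, ∀ N ≥ N0, c0 * N ≤ ∑ n ∈ Finset.Icc 1 N, ph U f g n := by
  set δ : ℝ := ⟪f, e⟫ with hδ
  have hδ0 : 0 < δ := h.fe
  obtain ⟨r, hr⟩ := exists_nat_gt (1 / δ ^ 2)
  have hr0 : 0 < (r : ℝ) := lt_trans (by positivity) hr
  have hr1 : 1 < r * δ ^ 2 := by
    rw [div_lt_iff₀ (by positivity)] at hr
    exact hr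
  obtain ⟨S, hcard, hpos, hdiv⟩ := divset r
  obtain ⟨M, hM⟩ : ∃ M, ∀ x ∈ S, x ≤ M := ⟨S.sup id, fun x hx => Finset.le_sup (f := id) hx⟩
  set c := M.factorial with hc
  have hc0 : 0 < c := Nat.factorial_pos M
  set κ : ℝ := r ^ 2 * δ ^ 2 - r with hκ
  have hκ0 : 0 < κ := by
    have : κ = r * (r * δ ^ 2 - 1) := by rw [hκ]; ring
    rw [this]
    exact mul_pos hr0 (by linarith)
  -- the pair function
  set ψ : ℕ → ℕ → ℕ → ℝ := fun t x y => ⟪U (c * t + x) g, U (c * t + y) g⟫ with hψ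
  have hval : ∀ t, ∀ x ∈ S, ∀ y ∈ S, x < y → ψ t x y = ph U f g ((c * t + x) / (y - x)) ∧
      (y - x) * ((c * t + x) / (y - x)) = c * t + x := by
    intro t x hx y hy hxy
    have hD0 : 0 < y - x := by omega
    have hDc : (y - x) ∣ c := Nat.dvd_factorial hD0 (by have := hM y hy; omega)
    have hDd : (y - x) ∣ c * t + x := dvd_add (hDc.mul_right t) (hdiv x hx y hy hxy)
    have e1 : (y - x) * ((c * t + x) / (y - x)) = c * t + x := Nat.mul_div_cancel' hDd
    refine ⟨?_, e1⟩
    set n := (c * t + x) / (y - x) with hn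
    have hn1 : 1 ≤ n := by
      rcases Nat.eq_zero_or_pos n with h0 | h0
      · rw [h0] at e1
        have := hpos x hx
        omega
      · exact h0
    have e2 : (y - x) * (n + 1) = c * t + y := by
      rw [mul_add, e1, mul_one]
      omega
    simp only [hψ]
    rw [← e2, ← e1]
    exact ph_eq h hg hn1 hD0
  have hsymm : ∀ t x y, ψ t x y = ψ t y x := fun t x y => real_inner_comm _ _
  -- for every `t` the sum over the pairs is large
  have hsum : ∀ t, κ ≤ ∑ x ∈ S, ∑ y ∈ S, if x = y then 0 else ψ t x y := by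
    intro t
    set V : H := ∑ x ∈ S, U (c * t + x) g with hV
    have hVe : (⟪V, e⟫ : ℝ) = r * δ := by
      rw [hV, sum_inner]
      have : ∀ x ∈ S, (⟪U (c * t + x) g, e⟫ : ℝ) = δ := by
        intro x hx
        have h1 : 1 ≤ c * t + x := by have := hpos x hx; omega
        conv_lhs => rw [← h.ue _ h1]
        rw [(U (c * t + x)).inner_map_map, hg.ge h]
      rw [Finset.sum_congr rfl this, Finset.sum_const, hcard, nsmul_eq_mul]
    have hVn : (r * δ) ^ 2 ≤ ‖V‖ ^ 2 := by
      have h1 := abs_real_inner_le_norm V e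
      rw [h.e1, mul_one, hVe, abs_of_nonneg (by positivity)] at h1
      exact pow_le_pow_left₀ (by positivity) h1 2
    have hVV : ‖V‖ ^ 2 = ∑ x ∈ S, ∑ y ∈ S, ψ t x y := by
      rw [← real_inner_self_eq_norm_sq, hV, sum_inner]
      apply Finset.sum_congr rfl
      intro x _
      rw [inner_sum]
    have hsplit : ∑ x ∈ S, ∑ y ∈ S, ψ t x y =
        (∑ x ∈ S, ∑ y ∈ S, if x = y then 0 else ψ t x y) + ∑ x ∈ S, ψ t x x := by
      rw [← Finset.sum_add_distrib]
      apply Finset.sum_congr rfl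
      intro x hx
      have : ∀ y ∈ S, ψ t x y = (if x = y then 0 else ψ t x y) + (if x = y then ψ t x y else 0) := by
        intro y _
        by_cases hxy : x = y <;> simp [hxy]
      rw [Finset.sum_congr rfl this, Finset.sum_add_distrib, Finset.sum_ite_eq]
      simp [hx]
    have hdiag : ∑ x ∈ S, ψ t x x ≤ r := by
      have : ∀ x ∈ S, ψ t x x ≤ 1 := by
        intro x _
        simp only [hψ]
        rw [real_inner_self_eq_norm_sq, (U (c * t + x)).norm_map]
        exact pow_le_one₀ (norm_nonneg _) (hg.norm_le h)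
      refine (Finset.sum_le_sum this).trans ?_
      simp [hcard]
    have : (r * δ) ^ 2 = r ^ 2 * δ ^ 2 := by ring
    rw [hκ]
    linarith
  refine ⟨κ / (2 * c * r ^ 2), by positivity, 2 * (M + c), fun N hN => ?_⟩
  set T := (N - M) / c with hT
  have hTN : c * T + M ≤ N := by
    have h1 : c * T ≤ N - M := Nat.mul_div_le _ _
    omega
  have hTc : (N : ℝ) / (2 * c) ≤ T := by
    have h1 : N - M < c * T + c := by
      have := Nat.lt_mul_div_succ (N - M) hc0
      rw [← hT] at this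
      calc N - M < c * (T + 1) := this
        _ = _ := by ring
    have h2 : N ≤ M + c + c * T := by omega
    have h3 : (N : ℝ) ≤ M + c + c * T := by exact_mod_cast h2
    have h4 : (2 : ℝ) * (M + c) ≤ N := by exact_mod_cast hN
    have h5 : (0 : ℝ) < c := by exact_mod_cast hc0
    rw [div_le_iff₀ (by positivity)]
    nlinarith
  set Sf : ℝ := ∑ n ∈ Finset.Icc 1 N, ph U f g n with hSf
  have hSf0 : 0 ≤ Sf := Finset.sum_nonneg (fun n hn => ph_nonneg h hg (Finset.mem_Icc.mp hn).1)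
  have hone : ∀ x ∈ S, ∀ y ∈ S, x < y → ∑ t ∈ Finset.range T, ψ t x y ≤ Sf := by
    intro x hx y hy hxy
    have hinj : Set.InjOn (fun t => (c * t + x) / (y - x)) (Finset.range T : Set ℕ) := by
      intro t _ t' _ ht
      simp only at ht
      have e1 := (hval t x hx y hy hxy).2
      have e2 := (hval t' x hx y hy hxy).2
      rw [ht, e2] at e1
      have : c * t' = c * t := by omega
      exact (Nat.eq_of_mul_eq_mul_left hc0 this).symm
    calc ∑ t ∈ Finset.range T, ψ t x y
        = ∑ t ∈ Finset.range T, ph U f g ((c * t + x) / (y - x)) :=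
          Finset.sum_congr rfl (fun t _ => (hval t x hx y hy hxy).1)
      _ = ∑ n ∈ (Finset.range T).image (fun t => (c * t + x) / (y - x)), ph U f g n := by
          rw [Finset.sum_image hinj]
      _ ≤ Sf := by
          apply Finset.sum_le_sum_of_subset_of_nonneg
          · intro n hn
            obtain ⟨t, ht, rfl⟩ := Finset.mem_image.mp hn
            have htT := Finset.mem_range.mp ht
            rw [Finset.mem_Icc]
            have e1 := (hval t x hx y hy hxy).2
            constructor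
            · rcases Nat.eq_zero_or_pos ((c * t + x) / (y - x)) with h0 | h0
              · rw [h0] at e1
                have := hpos x hx
                omega
              · exact h0
            · have h1 : (c * t + x) / (y - x) ≤ c * t + x := Nat.div_le_self _ _
              have h2 : c * t ≤ c * T := Nat.mul_le_mul_left c htT.le
              have h3 := hM x hx
              omega
          · intro n hn _
            exact ph_nonneg h hg (Finset.mem_Icc.mp hn).1
  have hpair : ∀ x ∈ S, ∀ y ∈ S, ∑ t ∈ Finset.range T, (if x = y then 0 else ψ t x y) ≤ Sf := by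
    intro x hx y hy
    rcases lt_trichotomy x y with hxy | hxy | hxy
    · simp only [hxy.ne, if_false]
      exact hone x hx y hy hxy
    · simp only [hxy, if_true, Finset.sum_const_zero]
      exact hSf0
    · simp only [hxy.ne', if_false]
      simp_rw [hsymm _ x y]
      exact hone y hy x hx hxy
  have htot : (T : ℝ) * κ ≤ r ^ 2 * Sf := by
    calc (T : ℝ) * κ = ∑ t ∈ Finset.range T, κ := by simp
      _ ≤ ∑ t ∈ Finset.range T, ∑ x ∈ S, ∑ y ∈ S, (if x = y then 0 else ψ t x y) :=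
          Finset.sum_le_sum (fun t _ => hsum t)
      _ = ∑ x ∈ S, ∑ y ∈ S, ∑ t ∈ Finset.range T, (if x = y then 0 else ψ t x y) := by
          rw [Finset.sum_comm]
          apply Finset.sum_congr rfl
          intro x _
          rw [Finset.sum_comm]
      _ ≤ ∑ x ∈ S, ∑ y ∈ S, Sf :=
          Finset.sum_le_sum (fun x hx => Finset.sum_le_sum (fun y hy => hpair x hx y hy))
      _ = _ := by simp [hcard]; ring
  have h5 : (0 : ℝ) < c := by exact_mod_cast hc0
  calc κ / (2 * c * r ^ 2) * N = (N / (2 * c)) * κ / r ^ 2 := by field_simp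
    _ ≤ T * κ / r ^ 2 := by gcongr
    _ ≤ r ^ 2 * Sf / r ^ 2 := by gcongr
    _ = Sf := by field_simp

/-- Domination of the averages over the squares. -/
theorem domin (h : Sys U f e) {v : H} (hv : v ∈ convexHull ℝ (orb U f)) :
    (∀ a b, 1 ≤ a → 1 ≤ b → (0:ℝ) ≤ ⟪U a f, U b v⟫) ∧ ∃ L : ℕ, 1 ≤ L ∧ ∀ a, 1 ≤ a → ∀ N : ℕ,
      ∑ m ∈ Finset.Icc 1 (N / L), (⟪U a f, U (m ^ 2) v⟫ : ℝ) ≤
        ∑ m ∈ Finset.Icc 1 N, (⟪U a f, U (m ^ 2) f⟫ : ℝ) := by
  have hsub : convexHull ℝ (orb U f) ⊆ {v | (∀ a b, 1 ≤ a → 1 ≤ b → (0:ℝ) ≤ ⟪U a f, U b v⟫) ∧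
      ∃ L : ℕ, 1 ≤ L ∧ ∀ a, 1 ≤ a → ∀ N : ℕ,
      ∑ m ∈ Finset.Icc 1 (N / L), (⟪U a f, U (m ^ 2) v⟫ : ℝ) ≤
        ∑ m ∈ Finset.Icc 1 N, (⟪U a f, U (m ^ 2) f⟫ : ℝ)} := by
    apply convexHull_min
    · rintro w ⟨j, hj, rfl⟩
      refine ⟨fun a b ha hb => ?_, j, hj, fun a ha N => ?_⟩
      · rw [← h.mul _ _ hb (sq1 hj)]
        exact h.pos _ _ ha (Nat.mul_pos hb (sq1 hj))
      · have hinj : Set.InjOn (fun m => j * m) (Finset.Icc 1 (N / j) : Set ℕ) := by
          intro m _ m' _ hm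
          exact Nat.eq_of_mul_eq_mul_left hj hm
        calc ∑ m ∈ Finset.Icc 1 (N / j), (⟪U a f, U (m ^ 2) (U (j ^ 2) f)⟫ : ℝ)
            = ∑ m ∈ Finset.Icc 1 (N / j), (⟪U a f, U ((j * m) ^ 2) f⟫ : ℝ) := by
              apply Finset.sum_congr rfl
              intro m hm
              rw [← h.mul _ _ (sq1 (Finset.mem_Icc.mp hm).1) (sq1 hj), ← mul_pow, mul_comm m j]
          _ = ∑ m ∈ (Finset.Icc 1 (N / j)).image (fun m => j * m),
                (⟪U a f, U (m ^ 2) f⟫ : ℝ) := by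
              rw [Finset.sum_image hinj]
          _ ≤ _ := by
              apply Finset.sum_le_sum_of_subset_of_nonneg
              · intro m hm
                obtain ⟨k, hk, rfl⟩ := Finset.mem_image.mp hm
                obtain ⟨h1, h2⟩ := Finset.mem_Icc.mp hk
                rw [Finset.mem_Icc]
                refine ⟨Nat.mul_pos hj h1, ?_⟩
                exact (Nat.mul_le_mul_left j h2).trans (Nat.mul_div_le N j)
              · intro m hm _
                exact h.pos _ _ ha (sq1 (Finset.mem_Icc.mp hm).1)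
    · rintro v ⟨hv1, L, hL, hv2⟩ w ⟨hw1, L', hL', hw2⟩ s t hs ht hst
      refine ⟨fun a b ha hb => ?_, max L L', le_max_of_le_left hL, fun a ha N => ?_⟩
      · rw [map_add, map_smul, map_smul, inner_add_right, inner_smul_right, inner_smul_right]
        have h1 := hv1 a b ha hb
        have h2 := hw1 a b ha hb
        positivity
      · have e1 : ∀ m, (⟪U a f, U (m ^ 2) (s • v + t • w)⟫ : ℝ) =
            s * ⟪U a f, U (m ^ 2) v⟫ + t * ⟪U a f, U (m ^ 2) w⟫ := by
          intro m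
          rw [map_add, map_smul, map_smul, inner_add_right, inner_smul_right, inner_smul_right]
        simp_rw [e1]
        rw [Finset.sum_add_distrib, ← Finset.mul_sum, ← Finset.mul_sum]
        have h1 : ∑ m ∈ Finset.Icc 1 (N / max L L'), (⟪U a f, U (m ^ 2) v⟫ : ℝ) ≤
            ∑ m ∈ Finset.Icc 1 N, (⟪U a f, U (m ^ 2) f⟫ : ℝ) := by
          refine le_trans ?_ (hv2 a ha N)
          apply Finset.sum_le_sum_of_subset_of_nonneg
          · apply Finset.Icc_subset_Icc_right
            exact Nat.div_le_div_left (le_max_left _ _) hL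
          · intro m hm _
            exact hv1 a _ ha (sq1 (Finset.mem_Icc.mp hm).1)
        have h2 : ∑ m ∈ Finset.Icc 1 (N / max L L'), (⟪U a f, U (m ^ 2) w⟫ : ℝ) ≤
            ∑ m ∈ Finset.Icc 1 N, (⟪U a f, U (m ^ 2) f⟫ : ℝ) := by
          refine le_trans ?_ (hw2 a ha N)
          apply Finset.sum_le_sum_of_subset_of_nonneg
          · apply Finset.Icc_subset_Icc_right
            exact Nat.div_le_div_left (le_max_right _ _) hL'
          · intro m hm _
            exact hw1 a _ ha (sq1 (Finset.mem_Icc.mp hm).1)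
        calc _ ≤ s * (∑ m ∈ Finset.Icc 1 N, (⟪U a f, U (m ^ 2) f⟫ : ℝ)) +
              t * (∑ m ∈ Finset.Icc 1 N, (⟪U a f, U (m ^ 2) f⟫ : ℝ)) := by gcongr
          _ = _ := by rw [← add_mul, hst, one_mul]
  exact hsub hv

/-- The main estimate. -/
theorem main [CompleteSpace H] (h : Sys U f e) : ∃ c : ℝ, 0 < c ∧ ∃ N0 : ℕ, ∀ N ≥ N0,
    c * N ^ 2 ≤ ∑ n ∈ Finset.Icc 1 N, ∑ m ∈ Finset.Icc 1 N,
      (⟪U (n * (n + 1)) f, U (m ^ 2) f⟫ : ℝ) := by
  obtain ⟨g, hgm, hgi⟩ := exists_inv h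
  have hg : Inv U f e g := ⟨hgm, hgi⟩
  obtain ⟨c0, hc0, N0, hN0⟩ := lower h hg
  obtain ⟨v, hv, hvg⟩ := Metric.mem_closure_iff.mp hgm (c0 / 2) (by positivity)
  rw [dist_eq_norm] at hvg
  obtain ⟨_, L, hL, hdom⟩ := domin h hv
  have hL0 : (0:ℝ) < L := by exact_mod_cast hL
  refine ⟨c0 / (4 * L), by positivity, max N0 (2 * L), fun N hN => ?_⟩
  have hNN0 : N0 ≤ N := le_trans (le_max_left _ _) hN
  have hNL : 2 * L ≤ N := le_trans (le_max_right _ _) hN
  set Q := N / L with hQ
  have hQr : (N : ℝ) / (2 * L) ≤ Q := by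
    have h1 : N < L * (Q + 1) := Nat.lt_mul_div_succ N hL
    have h2 : (N : ℝ) < L * (Q + 1) := by exact_mod_cast h1
    have h3 : (2 : ℝ) * L ≤ N := by exact_mod_cast hNL
    rw [div_le_iff₀ (by positivity)]
    nlinarith
  have hterm : ∀ n ∈ Finset.Icc 1 N, (Q : ℝ) * (ph U f g n - c0 / 2) ≤
      ∑ m ∈ Finset.Icc 1 N, (⟪U (n * (n + 1)) f, U (m ^ 2) f⟫ : ℝ) := by
    intro n hn
    have hn1 := (Finset.mem_Icc.mp hn).1
    have ha : 1 ≤ n * (n + 1) := Nat.mul_pos hn1 (by omega)
    refine le_trans ?_ (hdom _ ha N)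
    calc (Q : ℝ) * (ph U f g n - c0 / 2)
        = ∑ m ∈ Finset.Icc 1 (N / L), (ph U f g n - c0 / 2) := by
          rw [Finset.sum_const, Nat.card_Icc, nsmul_eq_mul, Nat.add_sub_cancel]
      _ ≤ _ := by
          apply Finset.sum_le_sum
          intro m hm
          have hm1 := (Finset.mem_Icc.mp hm).1
          have e1 : (⟪U (n * (n + 1)) f, U (m ^ 2) v⟫ : ℝ) =
              ph U f g n - ⟪U (n * (n + 1)) f, U (m ^ 2) (g - v)⟫ := by
            unfold ph
            rw [map_sub, inner_sub_right, hg.inv m hm1]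
            ring
          have e2 : |(⟪U (n * (n + 1)) f, U (m ^ 2) (g - v)⟫ : ℝ)| ≤ c0 / 2 := by
            refine (abs_real_inner_le_norm _ _).trans ?_
            rw [(U _).norm_map, (U _).norm_map]
            calc ‖f‖ * ‖g - v‖ ≤ 1 * (c0 / 2) :=
                  mul_le_mul h.f1 hvg.le (norm_nonneg _) zero_le_one
              _ = _ := one_mul _
          rw [e1]
          have := (abs_le.mp e2).2
          linarith
  calc c0 / (4 * L) * (N : ℝ) ^ 2 = (N / (2 * L)) * (c0 / 2 * N) := by field_simp; ring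
    _ ≤ Q * (c0 / 2 * N) := by gcongr
    _ ≤ Q * ((∑ n ∈ Finset.Icc 1 N, ph U f g n) - c0 / 2 * N) := by
        have := hN0 N hNN0
        gcongr
        linarith
    _ = ∑ n ∈ Finset.Icc 1 N, (Q : ℝ) * (ph U f g n - c0 / 2) := by
        have e3 : ∑ n ∈ Finset.Icc 1 N, (c0 / 2) = c0 / 2 * N := by
          rw [Finset.sum_const, Nat.card_Icc, nsmul_eq_mul, Nat.add_sub_cancel]
          ring
        rw [← Finset.mul_sum, Finset.sum_sub_distrib, e3]
    _ ≤ _ := Finset.sum_le_sum hterm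

end Pool.Agent.X297.MR
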